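import Mathlib
import Pool.Agent.Y268.D3.Stm3
import Pool.Agent.Y268.Kad.Base
import Pool.Agent.H711R2.KG.P.B3
import Pool.Agent.H711R2.KG.P.B4
import Pool.Agent.H711R2.KG.P.B5
import Pool.Agent.H711R2.KG.P.B8
import Pool.Agent.H711R2.KG.P.B9
import Pool.Agent.H711R2.KG.P.B10

/-!
Small fibre algebras, bilinear form (`prove_smallbi`).
-/

set_option autoImplicit false

open scoped ComplexOrder InnerProductSpace ComplexConjugate Topology
open Finset Filter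

noncomputable section

namespace Pool.Agent.Y141.D3

open H759R2.Kad H759R2.Kad.A25 H711R2.KG Y268.D3 Y268.Kad

/-- Similarity for a finite group of unitaries, with the formula for the norm. -/
theorem ren {A : Type} [CStarAlgebra A] {H : Type} [NormedAddCommGroup H]
    [InnerProductSpace ℂ H] [CompleteSpace H] (u : A →ₗ[ℂ] (H →L[ℂ] H)) (hu : IsHom u) {c : ℝ}
    (hc : 0 ≤ c) (hbd : ∀ a, ‖u a‖ ≤ c * ‖a‖) {G : Type} [Fintype G] [Nonempty G] (g : G → A)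
    (hg : ∀ i, g i ∈ unitary A) (hmul : ∀ h, ∃ φ : G ≃ G, ∀ i, g (φ i) = g i * g h) :
    ∃ S S' : H →L[ℂ] H, S * S' = 1 ∧ S' * S = 1 ∧ star S' = S' ∧
      (∀ ξ, ‖S ξ‖ ^ 2 = (Fintype.card G : ℝ)⁻¹ * ∑ i, ‖u (g i) ξ‖ ^ 2) ∧
      ∀ i, star (S * u (g i) * S') = S * u (star (g i)) * S' := by
  rcases subsingleton_or_nontrivial H with hH | hH
  · refine ⟨0, 0, Subsingleton.elim _ _, Subsingleton.elim _ _, Subsingleton.elim _ _,
      fun ξ => ?_, fun _ => Subsingleton.elim _ _⟩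
    have h0 : ∀ x : H, ‖x‖ = 0 := fun x => by
      rw [Subsingleton.elim x 0, norm_zero]
    simp only [h0]
    simp
  have hun : ∀ x : A, x ∈ unitary A → ‖x‖ ≤ 1 := fun x hx =>
    H294R2.Kad2.norm_le_one_of_unitary hx
  have hu1 : ∀ x : A, x ∈ unitary A → ‖u x‖ ≤ c := by
    intro x hx
    refine (hbd x).trans ?_
    have := mul_le_mul_of_nonneg_left (hun x hx) hc
    simpa using this
  have hinv : ∀ i, u (star (g i)) * u (g i) = 1 := by
    intro i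
    rw [← hu.mul, (Unitary.mem_iff.mp (hg i)).1, hu.one]
  have hinv' : ∀ i, u (g i) * u (star (g i)) = 1 := by
    intro i
    rw [← hu.mul, (Unitary.mem_iff.mp (hg i)).2, hu.one]
  have hcpos : 0 < c := by
    rcases hc.eq_or_lt with h0 | h0
    · exfalso
      obtain ⟨i⟩ := (inferInstance : Nonempty G)
      have h1 := hu1 _ (hg i)
      rw [← h0] at h1
      have h2 : u (g i) = 0 := norm_le_zero_iff.mp h1
      have h3 := hinv i
      rw [h2, mul_zero] at h3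
      exact zero_ne_one h3
    · exact h0
  have hcard : (0 : ℝ) < Fintype.card G := by exact_mod_cast Fintype.card_pos
  set q : H → ℝ := fun ξ => (Fintype.card G : ℝ)⁻¹ * ∑ i, ‖u (g i) ξ‖ ^ 2 with hq
  set T : H →L[ℂ] H := ((Fintype.card G : ℝ)⁻¹ : ℝ) • ∑ i, star (u (g i)) * u (g i) with hT
  have hTin : ∀ ξ, ⟪T ξ, ξ⟫_ℂ = (q ξ : ℂ) := by
    intro ξ
    have e1 : T ξ = ((Fintype.card G : ℝ)⁻¹ : ℝ) • ∑ i, (star (u (g i)) * u (g i)) ξ := by
      rw [hT]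
      simp
    have e2 : ∀ (r : ℝ) (x : H), r • x = ((r : ℝ) : ℂ) • x := fun r x => (Complex.coe_smul r x).symm
    rw [e1, e2, inner_smul_left, Complex.conj_ofReal, sum_inner]
    simp only [inner_star_mul, hq]
    push_cast
    rfl
  have avg : ∀ (f : G → ℝ) (t : ℝ), (∀ i, f i ≤ t) → (Fintype.card G : ℝ)⁻¹ * ∑ i, f i ≤ t := by
    intro f t h
    rw [inv_mul_le_iff₀ hcard]
    calc ∑ i, f i ≤ ∑ _i : G, t := Finset.sum_le_sum fun i _ => h i
      _ = _ := by rw [Finset.sum_const, Finset.card_univ, nsmul_eq_mul]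
  have avg' : ∀ (f : G → ℝ) (t : ℝ), (∀ i, t ≤ f i) → t ≤ (Fintype.card G : ℝ)⁻¹ * ∑ i, f i := by
    intro f t h
    rw [le_inv_mul_iff₀ hcard]
    calc (Fintype.card G : ℝ) * t = ∑ _i : G, t := by
          rw [Finset.sum_const, Finset.card_univ, nsmul_eq_mul]
      _ ≤ ∑ i, f i := Finset.sum_le_sum fun i _ => h i
  have hlow : ∀ ξ, ‖ξ‖ ^ 2 ≤ c ^ 2 * q ξ := by
    intro ξ
    rw [hq]
    simp only
    rw [mul_left_comm, Finset.mul_sum]
    refine avg' _ _ fun i => ?_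
    have e : ξ = u (star (g i)) (u (g i) ξ) := by
      have := congrArg (fun S : H →L[ℂ] H => S ξ) (hinv i)
      exact this.symm
    have h1 : ‖ξ‖ ≤ c * ‖u (g i) ξ‖ := by
      conv_lhs => rw [e]
      refine (ContinuousLinearMap.le_opNorm _ _).trans ?_
      exact mul_le_mul_of_nonneg_right (hu1 _ (Unitary.star_mem (hg i))) (norm_nonneg _)
    calc ‖ξ‖ ^ 2 ≤ (c * ‖u (g i) ξ‖) ^ 2 := pow_le_pow_left₀ (norm_nonneg _) h1 2
      _ = _ := by ring
  have hup : ∀ ξ, q ξ ≤ c ^ 2 * ‖ξ‖ ^ 2 := by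
    intro ξ
    refine avg _ _ fun i => ?_
    have : ‖u (g i) ξ‖ ≤ c * ‖ξ‖ :=
      ((u (g i)).le_opNorm ξ).trans (mul_le_mul_of_nonneg_right (hu1 _ (hg i)) (norm_nonneg _))
    calc ‖u (g i) ξ‖ ^ 2 ≤ (c * ‖ξ‖) ^ 2 := pow_le_pow_left₀ (norm_nonneg _) this 2
      _ = c ^ 2 * ‖ξ‖ ^ 2 := by ring
  obtain ⟨S, S', i1, i2, s1, s2, n1, n2, hSS, hSn⟩ := sqrtPair T q hTin hcpos hlow hup
  refine ⟨S, S', i1, i2, s2, hSn, fun h => ?_⟩
  have hTinv : star (u (g h)) * T * u (g h) = T := by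
    obtain ⟨φ, hφ⟩ := hmul h
    rw [hT, mul_smul_comm, smul_mul_assoc, Finset.mul_sum, Finset.sum_mul]
    congr 1
    rw [← Equiv.sum_comp φ (fun i => star (u (g i)) * u (g i))]
    refine Finset.sum_congr rfl fun i _ => ?_
    rw [hφ, hu.mul, star_mul]
    simp only [mul_assoc]
  have e1 : star (u (g h)) * (S * S) = S * S * u (star (g h)) := by
    rw [hSS]
    calc star (u (g h)) * T = star (u (g h)) * T * (u (g h) * u (star (g h))) := by
          rw [hinv', mul_one]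
      _ = (star (u (g h)) * T * u (g h)) * u (star (g h)) := by simp only [mul_assoc]
      _ = T * u (star (g h)) := by rw [hTinv]
  rw [star_mul, star_mul, s1, s2]
  calc S' * (star (u (g h)) * S) = S' * (star (u (g h)) * (S * S)) * S' := by
        simp only [mul_assoc, i1, mul_one]
    _ = S' * (S * S * u (star (g h))) * S' := by rw [e1]
    _ = (S' * S) * S * u (star (g h)) * S' := by simp only [mul_assoc]
    _ = S * u (star (g h)) * S' := by rw [i2, one_mul]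

/-- From signed permutations to all scalar matrices. -/
theorem star_all {L : ℕ} {H : Type} [NormedAddCommGroup H]
    [InnerProductSpace ℂ H] [CompleteSpace H]
    (u : CStarMatrix (Fin L) (Fin L) ℂ →ₗ[ℂ] (H →L[ℂ] H)) (S S' : H →L[ℂ] H)
    (hP : ∀ g : Equiv.Perm (Fin L) × (Fin L → ℤˣ), star (S * u (tens (spm g.1 g.2) 1) * S') =
      S * u (tens (star (spm g.1 g.2)) 1) * S') (s : Matrix (Fin L) (Fin L) ℂ) :
    star (S * u (tens s 1) * S') = S * u (tens (star s) 1) * S' := by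
  have hadd : ∀ s t : Matrix (Fin L) (Fin L) ℂ,
      star (S * u (tens s 1) * S') = S * u (tens (star s) 1) * S' →
      star (S * u (tens t 1) * S') = S * u (tens (star t) 1) * S' →
      star (S * u (tens (s + t) 1) * S') = S * u (tens (star (s + t)) 1) * S' := by
    intro s t hs ht
    rw [tens_add', map_add, mul_add, add_mul, star_add, hs, ht, star_add, tens_add', map_add,
      mul_add, add_mul]
  have hsmul : ∀ (a : ℂ) (s : Matrix (Fin L) (Fin L) ℂ),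
      star (S * u (tens s 1) * S') = S * u (tens (star s) 1) * S' →
      star (S * u (tens (a • s) 1) * S') = S * u (tens (star (a • s)) 1) * S' := by
    intro a s hs
    rw [tens_smul', map_smul, mul_smul_comm, smul_mul_assoc, star_smul, hs, star_smul, tens_smul',
      map_smul, mul_smul_comm, smul_mul_assoc]
  have hsingle : ∀ i j : Fin L, Matrix.single i j (1 : ℂ) =
      (1 / 2 : ℂ) • (spm (Equiv.swap i j) (fun _ => 1) +
        (-1 : ℂ) • spm (Equiv.swap i j) (Function.update (fun _ => 1) i (-1))) := by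
    intro i j
    ext a b
    rw [Matrix.smul_apply, Matrix.add_apply, Matrix.smul_apply, spm_apply, spm_apply,
      Matrix.single_apply]
    by_cases ha : a = i
    · subst ha
      by_cases hb : b = j
      · subst hb
        simp
        norm_num
      · have hb' : ¬ (j = b) := fun h => hb h.symm
        simp [hb']
    · have ha' : ¬ (i = a) := fun h => ha h.symm
      simp only [Function.update_of_ne ha, ha', false_and, if_false, Units.val_one, Int.cast_one,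
        smul_eq_mul]
      split_ifs <;> norm_num
  rw [Matrix.matrix_eq_sum_single s]
  have hzero : star (S * u (tens (0 : Matrix (Fin L) (Fin L) ℂ) 1) * S') =
      S * u (tens (star (0 : Matrix (Fin L) (Fin L) ℂ)) 1) * S' := by
    have := hsmul 0 (spm 1 1) (hP (1, 1))
    simpa using this
  have hsum : ∀ (κ : Type) (F : Finset κ) (f : κ → Matrix (Fin L) (Fin L) ℂ),
      (∀ k ∈ F, star (S * u (tens (f k) 1) * S') = S * u (tens (star (f k)) 1) * S') →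
      star (S * u (tens (∑ k ∈ F, f k) 1) * S') = S * u (tens (star (∑ k ∈ F, f k)) 1) * S' := by
    classical
    intro κ F f
    induction F using Finset.induction_on with
    | empty => intro _; simpa using hzero
    | insert a F ha ih =>
      intro h
      rw [Finset.sum_insert ha]
      exact hadd _ _ (h a (Finset.mem_insert_self a F))
        (ih fun k hk => h k (Finset.mem_insert_of_mem hk))
  apply hsum
  intro i _
  apply hsum
  intro j _
  have e : Matrix.single i j (s i j) = s i j • Matrix.single i j (1 : ℂ) := by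
    rw [Matrix.smul_single, smul_eq_mul, mul_one]
  rw [e, hsingle]
  apply hsmul
  apply hsmul
  apply hadd
  · exact hP (Equiv.swap i j, fun _ => 1)
  · apply hsmul
    exact hP (Equiv.swap i j, Function.update (fun _ => 1) i (-1))

/-- The bound for matrix algebras. -/
theorem mat_bi {n : ℕ} {H : Type} [NormedAddCommGroup H] [InnerProductSpace ℂ H]
    [CompleteSpace H] (u : CStarMatrix (Fin n) (Fin n) ℂ →ₗ[ℂ] (H →L[ℂ] H)) (hu : IsHom u)
    (c : ℝ) (hc : 0 ≤ c) (hbd : ∀ X, ‖u X‖ ≤ c * ‖X‖) (m : ℕ)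
    (X : CStarMatrix (Fin m) (Fin m) (CStarMatrix (Fin n) (Fin n) ℂ)) (ζ η : HH (Fin m) H)
    (a b : Fin m → ℝ) (ha : ∀ i, 0 ≤ a i) (hb : ∀ i, 0 ≤ b i)
    (hζ : ∀ i x, ‖u x (ζ i)‖ ≤ a i * ‖x‖) (hη : ∀ i x, ‖vmap u x (η i)‖ ≤ b i * ‖x‖) :
    ‖⟪amp u (Fin m) X ζ, η⟫_ℂ‖ ^ 2 ≤ ‖X‖ ^ 2 * (∑ i, a i ^ 2) * ∑ i, b i ^ 2 := by
  have hone : (1 : ℂ) ∈ unitary ℂ := one_mem _
  have hmem : ∀ g : Equiv.Perm (Fin n) × (Fin n → ℤˣ),
      tens (spm g.1 g.2) (1 : ℂ) ∈ unitary (CStarMatrix (Fin n) (Fin n) ℂ) :=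
    fun g => Block.tens_unitary (spm_mem g.1 g.2) hone
  obtain ⟨S, S', i1, i2, s2, hSn, hstar⟩ := ren u hu hc hbd
    (fun g : Equiv.Perm (Fin n) × (Fin n → ℤˣ) => tens (spm g.1 g.2) (1 : ℂ)) hmem
    (fun h => ⟨Equiv.ofBijective (rmul h.1 h.2)
      ((Finite.injective_iff_bijective).mp (rmul_inj h.1 h.2)), fun g => by
        rw [tens_mul_tens, spm_mul]
        rfl⟩)
  have hs := star_all u S S' (fun g => by
    rw [hstar g, H294R2.Kad2.star_tens, star_one])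
  obtain ⟨π, hπ⟩ : ∃ π : CStarMatrix (Fin n) (Fin n) ℂ →⋆ₐ[ℂ] (H →L[ℂ] H),
      ∀ x, π x = S * u x * S' := ⟨P_B9.piHom u hu S S' i1 i2 hs, fun x => rfl⟩
  have hun : ∀ x : CStarMatrix (Fin n) (Fin n) ℂ,
      x ∈ unitary (CStarMatrix (Fin n) (Fin n) ℂ) → ‖x‖ ≤ 1 := fun x hx =>
    H294R2.Kad2.norm_le_one_of_unitary hx
  have hcard : (0 : ℝ) < Fintype.card (Equiv.Perm (Fin n) × (Fin n → ℤˣ)) := by
    exact_mod_cast Fintype.card_pos
  have cS : ∀ x : H, S (S' x) = x := fun x =>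
    congrArg (fun T : H →L[ℂ] H => T x) i1
  have cS' : ∀ x : H, S' (S x) = x := fun x =>
    congrArg (fun T : H →L[ℂ] H => T x) i2
  have hadj : ∀ x y : H, ⟪S' x, y⟫_ℂ = ⟪x, S' y⟫_ℂ := by
    intro x y
    have h1 : ⟪(ContinuousLinearMap.adjoint S') x, y⟫_ℂ = ⟪x, S' y⟫_ℂ :=
      ContinuousLinearMap.adjoint_inner_left S' y x
    have h2 : ContinuousLinearMap.adjoint S' = S' := by
      rw [← ContinuousLinearMap.star_eq_adjoint, s2]
    rwa [h2] at h1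
  -- the vectors
  have hζ' : ∀ i, ‖S (ζ i)‖ ^ 2 ≤ a i ^ 2 := by
    intro i
    rw [hSn, inv_mul_le_iff₀ hcard]
    calc ∑ g : Equiv.Perm (Fin n) × (Fin n → ℤˣ), ‖u (tens (spm g.1 g.2) (1 : ℂ)) (ζ i)‖ ^ 2
        ≤ ∑ _g : Equiv.Perm (Fin n) × (Fin n → ℤˣ), a i ^ 2 := by
          refine Finset.sum_le_sum fun g _ => ?_
          refine pow_le_pow_left₀ (norm_nonneg _) ((hζ i _).trans ?_) 2
          calc a i * ‖tens (spm g.1 g.2) (1 : ℂ)‖ ≤ a i * 1 :=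
                mul_le_mul_of_nonneg_left (hun _ (hmem g)) (ha i)
            _ = a i := mul_one _
      _ = _ := by rw [Finset.sum_const, Finset.card_univ, nsmul_eq_mul]
  have hη' : ∀ i, ‖S' (η i)‖ ^ 2 ≤ b i ^ 2 := by
    intro i
    obtain ⟨ψ, hψ⟩ : ∃ ψ, ψ = S' (η i) := ⟨_, rfl⟩
    have h1 : ‖ψ‖ ^ 2 = ‖⟪η i, S' ψ⟫_ℂ‖ := by
      rw [← hadj, ← hψ, inner_self_eq_norm_sq_to_K]
      simp
    have h2 : ∀ g : Equiv.Perm (Fin n) × (Fin n → ℤˣ), ‖⟪η i, S' ψ⟫_ℂ‖ ≤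
        b i * ‖u (tens (spm g.1 g.2) (1 : ℂ)) (S' ψ)‖ := by
      intro g
      have e1 : ⟪η i, S' ψ⟫_ℂ = ⟪vmap u (tens (spm g.1 g.2) (1 : ℂ)) (η i),
          u (tens (spm g.1 g.2) (1 : ℂ)) (S' ψ)⟫_ℂ := by
        rw [vmap_apply, ContinuousLinearMap.star_eq_adjoint,
          ContinuousLinearMap.adjoint_inner_left]
        have e2 : u (star (tens (spm g.1 g.2) (1 : ℂ))) (u (tens (spm g.1 g.2) (1 : ℂ)) (S' ψ)) =
            (u (star (tens (spm g.1 g.2) (1 : ℂ))) * u (tens (spm g.1 g.2) (1 : ℂ))) (S' ψ) := rfl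
        rw [e2, ← hu.mul, (Unitary.mem_iff.mp (hmem g)).1, hu.one]
        rfl
      rw [e1]
      refine (norm_inner_le_norm _ _).trans (mul_le_mul_of_nonneg_right ?_ (norm_nonneg _))
      refine (hη i _).trans ?_
      calc b i * ‖tens (spm g.1 g.2) (1 : ℂ)‖ ≤ b i * 1 :=
            mul_le_mul_of_nonneg_left (hun _ (hmem g)) (hb i)
        _ = b i := mul_one _
    have h3 : ‖⟪η i, S' ψ⟫_ℂ‖ ^ 2 ≤ b i ^ 2 * ‖ψ‖ ^ 2 := by
      have h4 := hSn (S' ψ)
      rw [cS] at h4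
      rw [h4, mul_left_comm, Finset.mul_sum, le_inv_mul_iff₀ hcard]
      calc (Fintype.card (Equiv.Perm (Fin n) × (Fin n → ℤˣ)) : ℝ) * ‖⟪η i, S' ψ⟫_ℂ‖ ^ 2
          = ∑ _g : Equiv.Perm (Fin n) × (Fin n → ℤˣ), ‖⟪η i, S' ψ⟫_ℂ‖ ^ 2 := by
            rw [Finset.sum_const, Finset.card_univ, nsmul_eq_mul]
        _ ≤ _ := by
            refine Finset.sum_le_sum fun g _ => ?_
            rw [← mul_pow]
            exact pow_le_pow_left₀ (norm_nonneg _) (h2 g) 2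
    rw [← h1] at h3
    rw [← hψ]
    rcases (sq_nonneg ‖ψ‖).eq_or_lt with h5 | h5
    · rw [← h5]
      positivity
    · have h6 : ‖ψ‖ ^ 2 * ‖ψ‖ ^ 2 ≤ b i ^ 2 * ‖ψ‖ ^ 2 := by
        calc ‖ψ‖ ^ 2 * ‖ψ‖ ^ 2 = (‖ψ‖ ^ 2) ^ 2 := by ring
          _ ≤ _ := h3
      exact le_of_mul_le_mul_right h6 h5
  obtain ⟨ζ', hζd⟩ : ∃ ζ' : HH (Fin m) H, ∀ i, ζ' i = S (ζ i) :=
    ⟨WithLp.toLp 2 fun i => S (ζ i), fun i => rfl⟩
  obtain ⟨η', hηd⟩ : ∃ η' : HH (Fin m) H, ∀ i, η' i = S' (η i) :=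
    ⟨WithLp.toLp 2 fun i => S' (η i), fun i => rfl⟩
  have hn1 : ‖ζ'‖ ^ 2 ≤ ∑ i, a i ^ 2 := by
    rw [PiLp.norm_sq_eq_of_L2]
    exact Finset.sum_le_sum fun i _ => by rw [hζd]; exact hζ' i
  have hn2 : ‖η'‖ ^ 2 ≤ ∑ i, b i ^ 2 := by
    rw [PiLp.norm_sq_eq_of_L2]
    exact Finset.sum_le_sum fun i _ => by rw [hηd]; exact hη' i
  have hin : ⟪amp u (Fin m) X ζ, η⟫_ℂ = ⟪amp π.toLinearMap (Fin m) X ζ', η'⟫_ℂ := by
    rw [PiLp.inner_apply, PiLp.inner_apply]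
    refine Finset.sum_congr rfl fun i _ => ?_
    rw [amp_apply, amp_apply, hηd, ← hadj, map_sum]
    congr 1
    refine Finset.sum_congr rfl fun j _ => ?_
    have e1 : π.toLinearMap (X i j) = S * u (X i j) * S' := hπ (X i j)
    rw [e1, hζd]
    show _ = S' (S (u (X i j) (S' (S (ζ j)))))
    rw [cS', cS']
  have hX : ‖amp π.toLinearMap (Fin m) X‖ ≤ ‖X‖ :=
    NonUnitalStarAlgHom.norm_apply_le (ampHom π (Fin m)) X
  have hfin : ‖⟪amp u (Fin m) X ζ, η⟫_ℂ‖ ≤ ‖X‖ * ‖ζ'‖ * ‖η'‖ := by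
    rw [hin]
    refine (norm_inner_le_norm _ _).trans (mul_le_mul_of_nonneg_right ?_ (norm_nonneg _))
    exact (ContinuousLinearMap.le_opNorm _ _).trans
      (mul_le_mul_of_nonneg_right hX (norm_nonneg _))
  calc ‖⟪amp u (Fin m) X ζ, η⟫_ℂ‖ ^ 2 ≤ (‖X‖ * ‖ζ'‖ * ‖η'‖) ^ 2 :=
        pow_le_pow_left₀ (norm_nonneg _) hfin 2
    _ = ‖X‖ ^ 2 * ‖ζ'‖ ^ 2 * ‖η'‖ ^ 2 := by ring
    _ ≤ ‖X‖ ^ 2 * (∑ i, a i ^ 2) * ∑ i, b i ^ 2 := by
        refine mul_le_mul (mul_le_mul_of_nonneg_left hn1 (by positivity)) hn2 (by positivity) ?_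
        have : 0 ≤ ∑ i, a i ^ 2 := Finset.sum_nonneg fun i _ => sq_nonneg _
        positivity

/-- **Small fibre algebras.** -/
theorem prove_smallbi : S_smallbi := by
  intro B _ _ _ hB K hK H _ _ _ u hu c hc hb m X ζ η a b ha hb' hζ hη
  obtain ⟨n, g, hn, hg, hs, hmin⟩ := p_B_minsum B 1 K ⟨star_one B, one_mul 1⟩ hB.nontriv hK
  obtain ⟨φ⟩ := p_B_mat p_B_scal p_B_minle B hB n g hn hg hs hmin
  let w : CStarMatrix (Fin n) (Fin n) ℂ →ₗ[ℂ] (H →L[ℂ] H) :=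
    u ∘ₗ
      { toFun := fun X => φ.symm X
        map_add' := fun X Y => map_add φ.symm X Y
        map_smul' := fun r X => map_smul φ.symm r X }
  have hwa : ∀ X, w X = u (φ.symm X) := fun X => rfl
  have hw : IsHom w := by
    refine ⟨?_, ?_⟩
    · intro X Y
      rw [hwa, hwa, hwa, map_mul]
      exact hu.mul _ _
    · rw [hwa, map_one]
      exact hu.one
  have hφn : ∀ X, ‖φ.symm X‖ ≤ ‖X‖ := fun X =>
    NonUnitalStarAlgHom.norm_apply_le
      (φ.symm : CStarMatrix (Fin n) (Fin n) ℂ →⋆ₙₐ[ℂ] B) X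
  have hwb : ∀ X, ‖w X‖ ≤ c * ‖X‖ := by
    intro X
    rw [hwa]
    exact (hb _).trans (mul_le_mul_of_nonneg_left (hφn X) hc)
  have hY : ‖CStarMatrix.mapₙₐ (n := Fin m) (φ : B →⋆ₙₐ[ℂ] CStarMatrix (Fin n) (Fin n) ℂ) X‖ ≤
      ‖X‖ := NonUnitalStarAlgHom.norm_apply_le _ _
  have he : amp w (Fin m) (CStarMatrix.mapₙₐ (n := Fin m)
      (φ : B →⋆ₙₐ[ℂ] CStarMatrix (Fin n) (Fin n) ℂ) X) = amp u (Fin m) X := by
    ext ξ i
    rw [amp_apply, amp_apply]
    refine Finset.sum_congr rfl fun j _ => ?_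
    rw [hwa]
    congr 2
    exact φ.symm_apply_apply (X i j)
  have h1 := mat_bi w hw c hc hwb m (CStarMatrix.mapₙₐ (n := Fin m)
      (φ : B →⋆ₙₐ[ℂ] CStarMatrix (Fin n) (Fin n) ℂ) X) ζ η a b ha hb'
    (fun i x => by
      rw [hwa]
      exact (hζ i _).trans (mul_le_mul_of_nonneg_left (hφn x) (ha i)))
    (fun i x => by
      have e : vmap w x = vmap u (φ.symm x) := by
        rw [vmap_apply, vmap_apply, hwa, map_star]
      rw [e]
      exact (hη i _).trans (mul_le_mul_of_nonneg_left (hφn x) (hb' i)))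
  rw [he] at h1
  refine h1.trans ?_
  rw [one_pow, one_mul]
  have h2 : 0 ≤ ∑ i, a i ^ 2 := Finset.sum_nonneg fun i _ => sq_nonneg _
  have h3 : 0 ≤ ∑ i, b i ^ 2 := Finset.sum_nonneg fun i _ => sq_nonneg _
  refine mul_le_mul_of_nonneg_right (mul_le_mul_of_nonneg_right ?_ h2) h3
  exact pow_le_pow_left₀ (norm_nonneg _) hY 2

end Pool.Agent.Y141.D3
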